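import Mathlib
import Pool.Agent.LeoC.CountStmts
import Pool.Agent.Helper59_LeoK.Kcn

/-!
# LEOC, module ADC: the local conditions imply `AdmG`
-/

set_option autoImplicit false

open NumberField NumberField.InfinitePlace NumberField.mixedEmbedding IsDedekindDomain Module
  MeasureTheory
open Pool.Agent.LeoK Pool.Agent.LeoG Pool.Agent.Leo3

namespace Pool.Agent.LeoC.H17

theorem adc (hadm : LeoK.AdmStmt) : AdcStmt := by
  intro k _ _ m hloc htwo hnsq
  have hm : m ≠ 0 := by
    rintro rfl
    exact hnsq 0 (by simp)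
  exact ⟨LeoK.H59.sqf_of_loc m hm fun p => (hloc p).sqf, htwo,
    hadm k m fun v hv => (hloc v).three hv, hnsq⟩

end Pool.Agent.LeoC.H17
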