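import Mathlib
import Pool.Agent.LeoC.UpStmts

/-!
# LEOC, module COV: the covolume of an ideal
-/

set_option autoImplicit false

open NumberField NumberField.InfinitePlace NumberField.mixedEmbedding IsDedekindDomain Module
  MeasureTheory
open Pool.Agent.LeoK Pool.Agent.LeoG

open scoped Classical nonZeroDivisors

namespace Pool.Agent.LeoC.H17

theorem cov : CovStmt := by
  intro k _ _ I hI
  have hI' : I ∈ (Ideal (𝓞 k))⁰ := mem_nonZeroDivisors_of_ne_zero hI
  let J : (FractionalIdeal (𝓞 k)⁰ k)ˣ := FractionalIdeal.mk0 k ⟨I, hI'⟩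
  have hJ : (J : FractionalIdeal (𝓞 k)⁰ k) = (I : FractionalIdeal (𝓞 k)⁰ k) :=
    FractionalIdeal.coe_mk0 k ⟨I, hI'⟩
  refine ⟨_, inferInstance, fractionalIdealLatticeBasis k J, ?_, ?_⟩
  · intro y
    rw [mem_span_fractionalIdealLatticeBasis]
    constructor
    · rintro ⟨x, hx, rfl⟩
      rw [hJ] at hx
      obtain ⟨x', hx', rfl⟩ := (FractionalIdeal.mem_coeIdeal _).mp hx
      exact ⟨x', hx', rfl⟩
    · rintro ⟨x, hx, rfl⟩
      refine ⟨(x : k), ?_, rfl⟩
      rw [hJ]
      exact (FractionalIdeal.mem_coeIdeal _).mpr ⟨x, hx, rfl⟩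
  · rw [volume_fundamentalDomain_fractionalIdealLatticeBasis, ENNReal.toReal_mul, hJ,
      FractionalIdeal.coeIdeal_absNorm]
    rw [mul_comm, LeoC.cov]
    congr 1
    rw [ENNReal.toReal_ofReal (by positivity)]
    norm_cast

end Pool.Agent.LeoC.H17
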